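import Pool.Agent.Q283.EN.Stm3

/-!
JOB EN-MLAW: from the law to the mean.
-/

set_option autoImplicit false

namespace Pool.Agent.Q162.EN

open Filter Topology Finset
open Pool.Agent.Q283.EN

theorem al_zero_nonneg (p : ℕ) (hp : 2 ≤ p) : 0 ≤ al p 0 := by
  unfold al
  rw [range_zero, prod_empty, div_one]
  have hp' : (2 : ℝ) ≤ p := by exact_mod_cast hp
  have h0 : ∀ i : ℕ, 0 ≤ (1 - (1 / (p : ℝ)) ^ (2 * i + 1)) := by
    intro i
    rw [sub_nonneg]
    apply pow_le_one₀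
    · positivity
    · rw [div_le_one (by linarith)]
      linarith
  by_cases h : Multipliable fun i : ℕ => (1 - (1 / (p : ℝ)) ^ (2 * i + 1))
  · exact ge_of_tendsto' h.hasProd fun s => prod_nonneg fun i _ => h0 i
  · rw [tprod_eq_one_of_not_multipliable h]
    exact zero_le_one

theorem al_eq (p r : ℕ) : al p r = al p 0 / ∏ i ∈ range r, ((p : ℝ) ^ (i + 1) - 1) := by
  unfold al
  rw [range_zero, prod_empty, div_one]

theorem prod_ge (p : ℕ) (hp : 2 ≤ p) (r : ℕ) :
    (3 : ℝ) ^ r / 3 ≤ ∏ i ∈ range r, ((p : ℝ) ^ (i + 1) - 1) := by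
  have hp' : (2 : ℝ) ≤ p := by exact_mod_cast hp
  induction r with
  | zero => simp; norm_num
  | succ n ih =>
    rw [prod_range_succ]
    rcases Nat.eq_zero_or_pos n with h | h
    · subst h
      simp
      linarith
    · have h1 : (3 : ℝ) ≤ (p : ℝ) ^ (n + 1) - 1 := by
        have h2 : (2 : ℝ) ^ 2 ≤ (p : ℝ) ^ (n + 1) := by
          calc (2 : ℝ) ^ 2 ≤ (2 : ℝ) ^ (n + 1) := pow_le_pow_right₀ (by norm_num) (by omega)
            _ ≤ (p : ℝ) ^ (n + 1) := pow_le_pow_left₀ (by norm_num) hp' _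
        linarith
      calc (3 : ℝ) ^ (n + 1) / 3 = (3 : ℝ) ^ n / 3 * 3 := by ring
        _ ≤ (∏ i ∈ range n, ((p : ℝ) ^ (i + 1) - 1)) * ((p : ℝ) ^ (n + 1) - 1) :=
          mul_le_mul ih h1 (by norm_num) (le_trans (by positivity) ih)

theorem al_nonneg (p : ℕ) (hp : 2 ≤ p) (r : ℕ) : 0 ≤ al p r := by
  rw [al_eq]
  exact div_nonneg (al_zero_nonneg p hp) (le_trans (by positivity) (prod_ge p hp r))

theorem al_le (p : ℕ) (hp : 2 ≤ p) (r : ℕ) : al p r ≤ 3 * al p 0 * (1 / 3) ^ r := by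
  rw [al_eq, div_le_iff₀ (lt_of_lt_of_le (by positivity) (prod_ge p hp r))]
  have h := mul_le_mul_of_nonneg_left (prod_ge p hp r)
    (show 0 ≤ 3 * al p 0 * (1 / 3 : ℝ) ^ r from
      mul_nonneg (mul_nonneg (by norm_num) (al_zero_nonneg p hp)) (by positivity))
  refine le_trans (le_of_eq ?_) h
  have h1 : ((1 : ℝ) / 3) ^ r * 3 ^ r = 1 := by
    rw [← mul_pow]
    norm_num
  calc al p 0 = al p 0 * (((1 : ℝ) / 3) ^ r * 3 ^ r) := by rw [h1, mul_one]
    _ = _ := by ring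

theorem summable_al (p : ℕ) (hp : 2 ≤ p) : Summable fun r : ℕ => (r : ℝ) * al p r := by
  have h := summable_pow_mul_geometric_of_norm_lt_one 1 (r := (1 / 3 : ℝ)) (by norm_num)
  have h2 := h.mul_left (3 * al p 0)
  refine Summable.of_nonneg_of_le (fun r => mul_nonneg (Nat.cast_nonneg _) (al_nonneg p hp r))
    (fun r => ?_) h2
  have h3 := mul_le_mul_of_nonneg_left (al_le p hp r) (Nat.cast_nonneg (α := ℝ) r)
  refine h3.trans (le_of_eq ?_)
  ring

theorem sum_le_avg (p : ℕ) (hp : 2 ≤ p) (R : ℕ) : ∑ j ∈ range R, (j : ℝ) * al p j ≤ avg p :=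
  (summable_al p hp).sum_le_tsum _ fun i _ => mul_nonneg (Nat.cast_nonneg _) (al_nonneg p hp i)

theorem mono_div (p : ℕ) (hp : 2 ≤ p) (R n : ℕ) (hn : R + 1 ≤ n) :
    (n : ℝ) ≤ ((R : ℝ) + 1) / (p : ℝ) ^ (R + 1) * (p : ℝ) ^ n := by
  have hp' : (2 : ℝ) ≤ p := by exact_mod_cast hp
  have hpos : (0 : ℝ) < (p : ℝ) ^ (R + 1) := by positivity
  rw [div_mul_eq_mul_div, le_div_iff₀ hpos]
  induction n, hn using Nat.le_induction with
  | base => push_cast; exact le_rfl
  | succ n hn ih =>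
    have h1 : (1 : ℝ) ≤ n := by exact_mod_cast (by omega : 1 ≤ n)
    calc ((n + 1 : ℕ) : ℝ) * (p : ℝ) ^ (R + 1) ≤ (p * n) * (p : ℝ) ^ (R + 1) := by
          apply mul_le_mul_of_nonneg_right _ hpos.le
          push_cast
          nlinarith
      _ = p * (n * (p : ℝ) ^ (R + 1)) := by ring
      _ ≤ p * (((R : ℝ) + 1) * (p : ℝ) ^ n) := mul_le_mul_of_nonneg_left ih (by positivity)
      _ = _ := by ring

theorem mlaw : S_MLAW := by
  intro p hpp ε hε
  have hp : 2 ≤ p := hpp.out.two_le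
  have hp' : (1 : ℝ) < p := by exact_mod_cast (by omega : 1 < p)
  obtain ⟨R, hR⟩ : ∃ R : ℕ, 3 * (((R : ℝ) + 1) / (p : ℝ) ^ (R + 1)) ≤ ε / 2 := by
    have h := tendsto_pow_const_div_const_pow_of_one_lt 1 hp'
    have h2 := (tendsto_add_atTop_iff_nat 1).2 h
    have h3 := (h2.const_mul 3).eventually (ge_mem_nhds (show (3 : ℝ) * 0 < ε / 2 by linarith))
    obtain ⟨R, hR⟩ := h3.exists
    refine ⟨R, ?_⟩
    simpa using hR
  refine ⟨R, min 1 (ε / (2 * ((R : ℝ) + 1) ^ 2)), lt_min one_pos (by positivity), ?_⟩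
  intro α T r hlaw hmom
  set δ : ℝ := min 1 (ε / (2 * ((R : ℝ) + 1) ^ 2)) with hδ
  have hδ1 : δ ≤ 1 := min_le_left _ _
  have hδ0 : 0 < δ := lt_min one_pos (by positivity)
  have hδ2 : δ * ((R : ℝ) + 1) ^ 2 ≤ ε / 2 := by
    have h := min_le_right 1 (ε / (2 * ((R : ℝ) + 1) ^ 2))
    rw [← hδ, le_div_iff₀ (by positivity)] at h
    linarith
  set K : ℝ := ((R : ℝ) + 1) / (p : ℝ) ^ (R + 1) with hK
  have hK0 : 0 ≤ K := by positivity
  have hT : (0 : ℝ) ≤ T.card := Nat.cast_nonneg _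
  have h1 : ∀ q ∈ T, (r q : ℝ) ≤
      (∑ j ∈ range (R + 1), if r q = j then (j : ℝ) else 0) + K * (p : ℝ) ^ r q := by
    intro q _
    rw [sum_ite_eq]
    by_cases hq : r q ∈ range (R + 1)
    · rw [if_pos hq]
      have : 0 ≤ K * (p : ℝ) ^ r q := by positivity
      linarith
    · rw [if_neg hq, zero_add]
      rw [mem_range, not_lt] at hq
      exact mono_div p hp R (r q) hq
  have h2 : ∑ q ∈ T, ∑ j ∈ range (R + 1), (if r q = j then (j : ℝ) else 0) ≤
      (avg p + δ * ((R : ℝ) + 1) ^ 2) * T.card := by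
    rw [sum_comm]
    have h3 : ∀ j ∈ range (R + 1), ∑ q ∈ T, (if r q = j then (j : ℝ) else 0) ≤
        ((j : ℝ) * al p j + δ * ((R : ℝ) + 1)) * T.card := by
      intro j hj
      rw [mem_range] at hj
      rw [← sum_filter, sum_const, nsmul_eq_mul]
      have h4 := (abs_le.1 (hlaw j (by omega))).2
      have h5 : ((T.filter (fun q => r q = j)).card : ℝ) ≤ (al p j + δ) * T.card := by linarith
      have h6 : (j : ℝ) ≤ (R : ℝ) + 1 := by exact_mod_cast (by omega : j ≤ R + 1)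
      calc ((T.filter (fun q => r q = j)).card : ℝ) * j ≤ ((al p j + δ) * T.card) * j :=
            mul_le_mul_of_nonneg_right h5 (Nat.cast_nonneg _)
        _ = (j * al p j + δ * j) * T.card := by ring
        _ ≤ _ := by
            apply mul_le_mul_of_nonneg_right _ hT
            have := mul_le_mul_of_nonneg_left h6 hδ0.le
            linarith
    refine (sum_le_sum h3).trans ?_
    rw [← sum_mul, sum_add_distrib, sum_const, card_range, nsmul_eq_mul]
    apply mul_le_mul_of_nonneg_right _ hT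
    have h7 := sum_le_avg p hp (R + 1)
    push_cast
    nlinarith
  have h8 : ∑ q ∈ T, K * (p : ℝ) ^ r q ≤ ε / 2 * T.card := by
    rw [← mul_sum]
    calc K * ∑ q ∈ T, (p : ℝ) ^ r q ≤ K * ((2 + δ) * T.card) :=
          mul_le_mul_of_nonneg_left hmom hK0
      _ ≤ K * (3 * T.card) := by
          apply mul_le_mul_of_nonneg_left _ hK0
          apply mul_le_mul_of_nonneg_right _ hT
          linarith
      _ = (3 * K) * T.card := by ring
      _ ≤ _ := mul_le_mul_of_nonneg_right hR hT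
  have h9 := sum_le_sum h1
  rw [sum_add_distrib] at h9
  have h10 : δ * ((R : ℝ) + 1) ^ 2 * T.card ≤ ε / 2 * T.card := mul_le_mul_of_nonneg_right hδ2 hT
  have h11 : (avg p + δ * ((R : ℝ) + 1) ^ 2) * T.card =
      avg p * T.card + δ * ((R : ℝ) + 1) ^ 2 * T.card := by ring
  have h12 : (avg p + ε) * T.card = avg p * T.card + ε / 2 * T.card + ε / 2 * T.card := by ring
  linarith

end Pool.Agent.Q162.EN
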