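import Pool.Agent.Q283.EN.Stm3

/-!
JOB EN-QCNV: the converse (quartic twists).
-/

set_option autoImplicit false

namespace Pool.Agent.Q162.EN

open NumberField IsDedekindDomain WeierstrassCurve
open Pool.Agent.Q7.LK
open Pool.Agent.Q283.EN
open Pool.Agent.TH841.SH.D (Coch Pt act Gal IsCoc IsCob cob)
open Pool.Agent.TH841.NF.D (Sha IsShaCoc shaCoc)

/-- a homomorphism of a finite group with a kernel of two elements has an image of index `2` -/
theorem two_cosets {G : Type} [AddCommGroup G] [Finite G] (θ : G →+ G) (T : G) (hT : T ≠ 0)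
    (hker : ∀ P, θ P = 0 ↔ P = 0 ∨ P = T) :
    ∃ P₁ : G, P₁ ∉ θ.range ∧ ∀ P : G, P ∈ θ.range ∨ P - P₁ ∈ θ.range := by
  have h1 : Nat.card θ.ker = 2 := by
    have e : (θ.ker : Set G) = {0, T} := by
      ext P
      show P ∈ θ.ker ↔ _
      rw [AddMonoidHom.mem_ker, hker P]
      simp
    show Nat.card (θ.ker : Set G) = 2
    rw [e, Nat.card_coe_set_eq, Set.ncard_pair hT.symm]
  have h2 := AddSubgroup.card_mul_index θ.ker
  have h3 := AddSubgroup.card_mul_index θ.range
  have h4 : θ.ker.index = Nat.card θ.range := by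
    rw [AddSubgroup.index_ker]
  rw [h4, h1] at h2
  have h5 : 0 < Nat.card θ.range := Nat.card_pos
  have h6 : θ.range.index = 2 := by
    rw [← h3, mul_comm] at h2
    exact (Nat.eq_of_mul_eq_mul_left h5 h2).symm
  obtain ⟨a, ha⟩ := AddSubgroup.index_eq_two_iff.1 h6
  refine ⟨-a, ?_, fun P => ?_⟩
  · have h := ha (-a)
    rw [neg_add_cancel] at h
    rcases h with h | h
    · exact h.2
    · exact absurd (zero_mem _) h.2
  · rcases ha P with h | h
    · right
      rw [sub_neg_eq_add]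
      exact h.1
    · exact Or.inl h.1

theorem qcnv (hQCOC : S_QCOC) (hQAP : S_QAP) (hQCL : S_QCL) (hQFEND : S_QFEND) : S_QCNV := by
  intro F _ _ i D hi hD htr
  obtain ⟨hfin, htriv⟩ := htr
  obtain ⟨hcl, hfun⟩ := hQCL F D hD
  obtain ⟨θ, θ', h1, h2, h3, h4, h5, h6⟩ := hQFEND F i D hi hD
  haveI hG : Finite (Pt (EQ D) F) := hfin
  have hns : ((EQ D).baseChange F).toAffine.Nonsingular 0 0 := by
    rw [Affine.nonsingular_zero]
    refine ⟨?_, Or.inr ?_⟩
    · show algebraMap F F 0 = 0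
      exact map_zero _
    · show algebraMap F F D ≠ 0
      exact hD
  obtain ⟨P₁, hP₁, hcos⟩ := two_cosets (θ F) (Affine.Point.some 0 0 hns : Pt (EQ D) F)
    (Affine.Point.some_ne_zero _) (fun P => by
      rw [(h3 F P).1]
      constructor
      · rintro (h | ⟨h, e⟩)
        · exact Or.inl h
        · exact Or.inr e
      · rintro (h | h)
        · exact Or.inl h
        · exact Or.inr ⟨hns, h⟩)
  have hz : CQ D F (0 : Pt (EQ D) F) 1 := ⟨one_ne_zero, Or.inl ⟨rfl, 1, by ring⟩⟩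
  have hneg : ∀ (Q : Pt (EQ D) F) (b : F), CQ D F Q b → CQ D F (-Q) b := by
    intro Q b hb
    obtain ⟨c, hc⟩ := (hcl F (-Q)).1
    have h := (hcl F Q).2.2.2 (-Q) b c hb hc
    rw [add_neg_cancel] at h
    obtain ⟨s, hs, e⟩ := (hcl F 0).2.2.1 1 (b * c) hz h
    have h' := (hcl F (-Q)).2.1 c (b / s) hc (div_ne_zero hb.1 hs)
    have e2 : c * (b / s) ^ 2 = b := by
      have : c * (b / s) ^ 2 = b * (b * c) / s ^ 2 := by ring
      rw [this, e]
      field_simp
    rwa [e2] at h'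
  have hsub : ∀ (P Q : Pt (EQ D) F) (a b : F), CQ D F P a → CQ D F Q b →
      CQ D F (P - Q) (a * b) := by
    intro P Q a b ha hb
    rw [sub_eq_add_neg]
    exact (hcl F P).2.2.2 (-Q) a b ha (hneg Q b hb)
  have hiff : ∀ (P Q : Pt (EQ D) F) (a b : F), CQ D F P a → CQ D F Q b →
      (IsPow 2 (a / b) ↔ P - Q ∈ (θ F).range) := by
    intro P Q a b ha hb
    have h := hsub P Q a b ha hb
    constructor
    · rintro ⟨s, hs⟩
      have hs0 : s ≠ 0 := by
        rintro rfl
        have : a / b ≠ 0 := div_ne_zero ha.1 hb.1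
        exact this (by rw [hs]; ring)
      have e : a * b = (s * b) ^ 2 := by
        have hb0 := hb.1
        have : a = s ^ 2 * b := by
          rw [← hs]
          field_simp
        rw [this]
        ring
      rw [e] at h
      obtain ⟨R, hR⟩ := (h6 F (P - Q) (s * b) (mul_ne_zero hs0 hb.1)).1 h
      exact ⟨R, hR.symm⟩
    · rintro ⟨R, hR⟩
      have h7 := (h6 F (P - Q) 1 one_ne_zero).2 ⟨R, hR.symm⟩
      obtain ⟨s, hs, e⟩ := (hcl F (P - Q)).2.2.1 (1 ^ 2) (a * b) h7 h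
      refine ⟨s / b, ?_⟩
      have hb0 := hb.1
      have : a = s ^ 2 / b := by
        rw [eq_div_iff hb0, e]
        ring
      rw [this]
      field_simp
  obtain ⟨a₁, ha₁⟩ := (hcl F P₁).1
  have haq : ∀ (P : Pt (EQ D) F) (a : F), CQ D F P a → ∀ v : HeightOneSpectrum (𝓞 F), AQ v D a := by
    intro P a ha v
    exact (hQAP F v D a hD ha.1).2 ⟨act (EQ D) (Algebra.ofId F (v.adicCompletion F)) P,
      hfun F (v.adicCompletion F) (Algebra.ofId F (v.adicCompletion F)) P a ha⟩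
  refine ⟨![1, a₁], ?_, ?_, ?_⟩
  · intro j
    fin_cases j
    · exact haq 0 1 hz
    · exact haq P₁ a₁ ha₁
  · have hn1 : ¬ IsPow 2 (a₁ / 1) := by
      rw [hiff P₁ 0 a₁ 1 ha₁ hz, sub_zero]
      exact hP₁
    have hn2 : ¬ IsPow 2 (1 / a₁) := by
      rw [hiff 0 P₁ 1 a₁ hz ha₁, zero_sub]
      intro h
      exact hP₁ (neg_mem_iff.1 h)
    intro j j' hjj
    fin_cases j <;> fin_cases j'
    · exact absurd rfl hjj
    · exact hn2
    · exact hn1
    · exact absurd rfl hjj
  · intro b hb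
    obtain ⟨f, hf, hcob⟩ := hQCOC F i D hi hD b hb
    have hf2 : (2 : ℕ) • f = 0 := by
      funext σ
      show (2 : ℕ) • (f σ) = 0
      rw [← (h1 _ (f σ)).1]
      have : θ (AlgebraicClosure F) (f σ) = 0 := (h3 _ (f σ)).1.2 (hf.2 σ)
      rw [this, map_zero]
    have hx : (QuotientAddGroup.mk (⟨f, hf.1⟩ : shaCoc (EQ D)) : Sha (EQ D)) = 0 := by
      apply htriv 1
      have e : (2 ^ 1 : ℕ) • (⟨f, hf.1⟩ : shaCoc (EQ D)) = 0 := by
        apply Subtype.ext
        show (2 ^ 1 : ℕ) • f = 0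
        rw [pow_one]
        exact hf2
      have h8 := congrArg (QuotientAddGroup.mk' ((cob (EQ D)).addSubgroupOf (shaCoc (EQ D)))) e
      rw [map_nsmul, map_zero] at h8
      exact h8
    have hmem := (QuotientAddGroup.eq_zero_iff (⟨f, hf.1⟩ : shaCoc (EQ D))).1 hx
    obtain ⟨P, hP⟩ := hcob (AddSubgroup.mem_addSubgroupOf.1 hmem)
    rcases hcos P with h | h
    · refine ⟨0, ?_⟩
      show IsPow 2 (b / 1)
      rw [hiff P 0 b 1 hP hz, sub_zero]
      exact h
    · refine ⟨1, ?_⟩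
      show IsPow 2 (b / a₁)
      rw [hiff P P₁ b a₁ hP ha₁]
      exact h

end Pool.Agent.Q162.EN
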